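import Pool.Agent.Helper37.LN2.Defs

/-!
# Project LN3 (MP_e66f84_ag): sections of cyclic twists over all finite extensions

`k` number field, `X_c : y ^ n = c h` the twists of a cyclic cover of the curve `Y`.  Sections of `X_c`
(or of curves above it) over finite extensions `k'` of `k`, with exceptional sets of primes which do
not depend on `k'`.

LOCAL: `v'` a prime of `k'` above `v ∉ Bad`, `c ∈ k'`, `n ∤ v'(c)`: if (a curve above) `X_c` has a
section over `k'` then a Frobenius element at `v'` fixes a point `P` of `Y` with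
`gcd(n, ord_P h) ∣ v'(c)`.

GLOBAL: let `σ` be an automorphism of the algebraic closure of `k`, and `Deg σ` the set of the sums of
the numbers `n` and `e * f` where `σ ^ f` fixes a point `P` with `gcd(n, ord_P h) ∣ e`.  For almost all
`c ∈ k*/k*ⁿ`: if (a curve above) `X_c` has a section over the finite extension `k'` of `k` then the
degree of `k'` is in `Deg σ`.
-/

set_option autoImplicit false

namespace Pool.Agent.LN3

open VC IntermediateField NumberField IsDedekindDomain Pool.Agent.SC Pool.Agent.Helper91.Sect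
open Pool.Agent.HG (Pr nm)
open Pool.Agent.L (Inert FPair L0 MM SamePlace OverV cst)
open Pool.Agent.LN (Geo GoodCurve IsRam DecPt Cls clsP)
open Pool.Agent.LN2 (FixesD)

noncomputable section

/-! ## Sections over finite extensions -/

/-- the action on `U` of a section over `k'` of (a curve over) the twist `y ^ n = c h`, `c ∈ k'` -/
structure ActR {k' K0 E U : Type} [Field k'] [Field K0] [Field E] [Field U] [Algebra k' E]
    [Algebra E U] [Algebra K0 U] (n : ℕ) (r : U) (c : k') (Φ : (E ≃ₐ[k'] E) →* (U ≃+* U)) :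
    Prop where
  const : ∀ g (e : E), Φ g (algebraMap E U e) = algebraMap E U (g e)
  fixK : ∀ g (x : K0), Φ g (algebraMap K0 U x) = algebraMap K0 U x
  tw : ∃ d : E, d ^ n = algebraMap k' E c ∧
    ∀ g, Φ g r * algebraMap E U (g d) = algebraMap E U d * r
  cont : ∀ z : U, ∃ L : IntermediateField k' E, FiniteDimensional k' L ∧
    ∀ g : E ≃ₐ[k'] E, (∀ x ∈ L, g x = x) → Φ g z = z

/-- Some curve over the extension `k'` of `k` which maps onto `y ^ n = c h` has a Galois section over
`k'`. -/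
def HasSecR (k k' : Type) {K0 : Type} [Field k] [Field K0] [Algebra k K0] [Field k']
    [Algebra k k'] (n : ℕ) (h : K0) (c : k') : Prop :=
  ∃ (K : Type) (_ : Field K) (_ : Algebra k' K) (_ : Algebra K0 K) (y : K),
    (∀ a : k, algebraMap k' K (algebraMap k k' a) = algebraMap K0 K (algebraMap k K0 a)) ∧
    y ^ n = algebraMap k' K c * algebraMap K0 K h ∧ Nonempty (GaloisSection k' K)

/-- BLOCK TR3 (transfer): the fixed situation `U`, and the action of all sections on it. -/
def StmtTR : Prop :=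
  ∀ (k K0 : Type) [Field k] [CharZero k] [Field K0] [Algebra k K0] (n : ℕ) (h : K0), 2 ≤ n →
    GoodCurve k n h →
    ∃ (E U : Type) (_ : Field E) (_ : Field U) (_ : Algebra k E) (_ : Algebra E U)
      (_ : Algebra K0 U) (_ : Algebra k U) (_ : IsScalarTower k E U) (_ : IsScalarTower k K0 U)
      (r : U), Geo k K0 E U n h r ∧ ∀ (k' : Type) [Field k'] [Algebra k k']
        [FiniteDimensional k k'] (c : k'), c ≠ 0 → HasSecR k k' n h c →
        ∃ (_ : Algebra k' E) (_ : IsScalarTower k k' E) (Φ : (E ≃ₐ[k'] E) →* (U ≃+* U)),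
          ActR (K0 := K0) n r c Φ

/-! ## The local theorem -/

/-- the prime `v'` of `k'` lies above the prime `v` of `k` -/
def Over {k k' : Type} [Field k] [NumberField k] [Field k'] [NumberField k'] [Algebra k k']
    (v : Pr k) (v' : Pr k') : Prop :=
  ∀ x : k, v'.valuation k' (algebraMap k k' x) ≤ 1 ↔ v.valuation k x ≤ 1

/-- BLOCK K5-3. -/
def StmtK5 : Prop :=
  ∀ (k K0 E U : Type) [Field k] [NumberField k] [Field K0] [Field E] [Field U] [Algebra k K0]
    [Algebra k E] [Algebra E U] [Algebra K0 U] [Algebra k U] [IsScalarTower k E U]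
    [IsScalarTower k K0 U] (n : ℕ) (h : K0) (r : U), 2 ≤ n → Geo k K0 E U n h r →
    ∃ Bad : Set (Pr k), Bad.Finite ∧ ∀ v ∉ Bad, ∀ (k' : Type) [Field k'] [NumberField k']
      [Algebra k k'] [Algebra k' E] [IsScalarTower k k' E] (v' : Pr k'), Over v v' →
      ∀ c : k', c ≠ 0 → IsRam n v' c →
      ∀ Φ : (E ≃ₐ[k'] E) →* (U ≃+* U), ActR (K0 := K0) n r c Φ →
      ∀ (O : ValuationSubring E) (F : E ≃ₐ[k'] E) (p f : ℕ), DecPt v' O F p f →
        FixesD h (fun d => d ∣ n ∧ IsRam d v' c) (F.restrictScalars k)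

/-- BLOCK LOC3. -/
def StmtLOC : Prop :=
  ∀ (k K0 : Type) [Field k] [NumberField k] [Field K0] [Algebra k K0] (n : ℕ) (h : K0), 2 ≤ n →
    GoodCurve k n h →
    ∃ Bad : Set (Pr k), Bad.Finite ∧ ∀ v ∉ Bad, ∀ (k' : Type) [Field k'] [NumberField k']
      [Algebra k k'] (v' : Pr k'), Over v v' → ∀ c : k', c ≠ 0 → IsRam n v' c →
      HasSecR k k' n h c →
      ∃ (_ : Algebra k' (AlgebraicClosure k)) (_ : IsScalarTower k k' (AlgebraicClosure k))
        (O : ValuationSubring (AlgebraicClosure k))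
        (F : AlgebraicClosure k ≃ₐ[k'] AlgebraicClosure k) (p f : ℕ), DecPt v' O F p f ∧
        FixesD h (fun d => d ∣ n ∧ IsRam d v' c) (F.restrictScalars k)

/-! ## Densities -/

open scoped Classical in
/-- BLOCK DEN3 (from `Pool.Agent.M.StmtW3`, proved in Helper79/M/W3): a set `Q` of primes of positive
density such that the elements `F` of the Galois group which act on the residue field of a valuation
ring `O` above `v ∈ Q` like the `f`-th power of the Frobenius automorphism of `v` fix no other branch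
points than `σ ^ f`, up to conjugation. -/
def StmtDEN : Prop :=
  ∀ (k K0 : Type) [Field k] [NumberField k] [Field K0] [Algebra k K0] (n : ℕ) (h : K0), 2 ≤ n →
    GoodCurve k n h → ∀ σ : AlgebraicClosure k ≃ₐ[k] AlgebraicClosure k,
    ∀ B : ℕ → Finset (Pr k), (∀ x v, v ∈ B x ↔ nm v ≤ x) →
    ∃ (δ C : ℝ) (Q : Set (Pr k)), 0 < δ ∧
      (∀ v ∈ Q, ∀ O : ValuationSubring (AlgebraicClosure k), OverV v O → ∀ (f : ℕ)
        (F : AlgebraicClosure k ≃ₐ[k] AlgebraicClosure k), 0 < f → (∀ z, F z ∈ O ↔ z ∈ O) →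
        (∀ z ∈ O, O.valuation (F z - z ^ nm v ^ f) < 1) →
        ∀ D : ℕ → Prop, D n → FixesD h D F → FixesD h D (σ ^ f)) ∧
      ∀ x : ℕ, 2 ≤ x →
        |∑ v ∈ (B x).filter (· ∈ Q), (1 : ℝ) / nm v - δ * Real.log (Real.log x)| ≤ C

/-! ## Degrees -/

/-- The additive monoid generated by `n` and the numbers `e * f` where `σ ^ f` fixes a point `P` of
`Y` (and an embedding of its residue field) such that all divisors `d` of `n` which divide the
valuation of `h` at `P` divide `e`, that is, `gcd(n, ord_P h) ∣ e`. -/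
def Deg {k K0 E : Type} [Field k] [Field K0] [Field E] [Algebra k K0] [Algebra k E]
    (n : ℕ) (h : K0) (σ : E ≃ₐ[k] E) : AddSubmonoid ℕ :=
  AddSubmonoid.closure {m | m = n ∨ ∃ e f : ℕ, 0 < e ∧ 0 < f ∧ m = e * f ∧
    FixesD h (fun d => d ∣ n ∧ ¬ d ∣ e) (σ ^ f)}

/-- Some curve which maps onto `y ^ n = c h` has a section over a finite extension `k'` of `k` the
degree of which is not in `Deg σ`. -/
def BadDeg {k K0 E : Type} [Field k] [Field K0] [Field E] [Algebra k K0] [Algebra k E]
    (n : ℕ) (h : K0) (σ : E ≃ₐ[k] E) (c : k) : Prop :=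
  ∃ (k' : Type) (_ : Field k') (_ : Algebra k k') (_ : FiniteDimensional k k'),
    HasSecR k k' n h (algebraMap k k' c) ∧ Module.finrank k k' ∉ Deg n h σ

open scoped Classical in
/-- BLOCK GL3 (from `StmtLOC`, `StmtDEN`; `∑ e f = [k' : k]`, `v'(c) = e v(c)`): at the primes of a set
`Q` of positive density the valuation of `c` is not prime to `n` if `BadDeg`. -/
def StmtGL : Prop :=
  ∀ (k K0 : Type) [Field k] [NumberField k] [Field K0] [Algebra k K0] (n : ℕ) (h : K0), 2 ≤ n →
    GoodCurve k n h → ∀ σ : AlgebraicClosure k ≃ₐ[k] AlgebraicClosure k,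
    ∀ B : ℕ → Finset (Pr k), (∀ x v, v ∈ B x ↔ nm v ≤ x) →
    ∃ (δ C : ℝ) (Q : Set (Pr k)), 0 < δ ∧
      (∀ v ∈ Q, ∀ c : k, c ≠ 0 → BadDeg n h σ c →
        ∃ d : ℕ, d ∣ n ∧ 1 < d ∧ ¬ IsRam d v c) ∧
      ∀ x : ℕ, 2 ≤ x →
        |∑ v ∈ (B x).filter (· ∈ Q), (1 : ℝ) / nm v - δ * Real.log (Real.log x)| ≤ C

/-- The final theorem of project LN3. -/
def StmtFin : Prop :=
  ∀ (k K0 : Type) [Field k] [NumberField k] [Field K0] [Algebra k K0] (n : ℕ) (h : K0), 2 ≤ n →
    GoodCurve k n h → ∀ σ : AlgebraicClosure k ≃ₐ[k] AlgebraicClosure k,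
    ∃ η C : ℝ, 0 < η ∧ 0 < C ∧ ∀ X : ℕ, 3 ≤ X →
      (Nat.card (clsP n (fun c : k => BadDeg n h σ c) X) : ℝ) ≤
        C * Nat.card (clsP (k := k) n (fun _ => True) X) / Real.log X ^ η

end

end Pool.Agent.LN3
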